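import Pool.Agent.PFJ.Stmts
import Pool.Agent.Helper60_PFS.Simp

/-!
Squad PFJ, row SH3: structure of the second box.
-/

set_option autoImplicit false

namespace Pool.Agent.PFJ.H88

open Pool.Agent.PFS Pool.Agent.PFJ

theorem sh3 (hSH1 : Sh1Stmt) (hSH2 : Sh2Stmt) : Sh3Stmt := by
  classical
  intro n C Γ hC K hK L w β L' w' β' i hB hB' hF hF' hS hS' hw
  obtain ⟨b, h1, h2, h3⟩ := hSH1 n C Γ hC K hK L w β L' w' β' i hB hB' hF hF' hS hS' hw
  have hLI : LinearIndependent ℝ w :=
    Pool.Agent.PFS.H60.lin n C hC.toPCone (Fin K) w hB.pes.1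
  have hne : ∀ j, w j ≠ 0 := fun j => hLI.ne_zero j
  -- two different vertices are not multiples of the same vector
  have no2 : ∀ j j', j ≠ j' → ∀ (u : V n) (s t : ℝ), w j = s • u → w j' = t • u → False := by
    intro j j' hjj u s t hs ht
    have hinj : Function.Injective ![j, j'] := by
      intro p q hpq
      fin_cases p <;> fin_cases q <;> simp_all
    have h := hLI.comp ![j, j'] hinj
    have e : w ∘ ![j, j'] = ![w j, w j'] := by
      funext p
      fin_cases p <;> rfl
    rw [e, LinearIndependent.pair_iff] at h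
    have h0 := h t (-s) (by rw [hs, ht, smul_smul, smul_smul, ← add_smul]; ring_nf; simp)
    apply hne j'
    rw [ht, h0.1, zero_smul]
  -- the fibres
  set N' : Fin K → ℕ := fun a => (Finset.univ.filter (fun j => β' j = a)).card with hN'
  set c : Fin K → ℕ := fun a => (Finset.univ.filter (fun j => j ≠ i ∧ b j = a)).card with hc
  have hN2 : ∀ a, N' a ≤ 2 := by
    intro a
    by_contra hcon
    have h4 : 2 < (Finset.univ.filter (fun j => β' j = a)).card := by
      simpa [hN'] using hcon
    obtain ⟨p, hp, q, hq, r, hr, hpq, hpr, hqr⟩ := Finset.two_lt_card.mp h4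
    have hp' := (Finset.mem_filter.mp hp).2
    have hq' := (Finset.mem_filter.mp hq).2
    have hr' := (Finset.mem_filter.mp hr).2
    rcases hB'.three p q r (hp'.trans hq'.symm) (hq'.trans hr'.symm) with h5 | h5 | h5
    · exact hpq h5
    · exact hqr h5
    · exact hpr h5
  have hc2 : ∀ a, c a ≤ 2 := by
    intro a
    by_contra hcon
    have h4 : 2 < (Finset.univ.filter (fun j => j ≠ i ∧ b j = a)).card := by
      simpa [hc] using hcon
    obtain ⟨p, hp, q, hq, r, hr, hpq, hpr, hqr⟩ := Finset.two_lt_card.mp h4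
    have hp' := (Finset.mem_filter.mp hp).2
    have hq' := (Finset.mem_filter.mp hq).2
    have hr' := (Finset.mem_filter.mp hr).2
    have e1 : β p = β q := (h2 p q hp'.1 hq'.1 hpq).mp (hp'.2.trans hq'.2.symm)
    have e2 : β q = β r := (h2 q r hq'.1 hr'.1 hqr).mp (hq'.2.trans hr'.2.symm)
    rcases hB.three p q r e1 e2 with h5 | h5 | h5
    · exact hpq h5
    · exact hqr h5
    · exact hpr h5
  -- fibre with no element
  have hbot : ∀ a, N' a = 0 → L' a = ⊥ := by
    intro a ha
    apply hB'.bot a
    intro p hp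
    have : (Finset.univ.filter (fun j => β' j = a)) = ∅ := Finset.card_eq_zero.mp ha
    have h4 : p ∈ Finset.univ.filter (fun j => β' j = a) := by simp [hp]
    rw [this] at h4
    exact absurd h4 (Finset.notMem_empty _)
  -- fibre with one element
  have hone : ∀ a, N' a = 1 → ∃ i', β' i' = a ∧ ∀ x ∈ L' a, ∃ t : ℝ, x = t • w' i' := by
    intro a ha
    obtain ⟨i', hi'⟩ := Finset.card_eq_one.mp ha
    have h4 : i' ∈ Finset.univ.filter (fun j => β' j = a) := by rw [hi']; simp
    have h5 : β' i' = a := (Finset.mem_filter.mp h4).2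
    refine ⟨i', h5, ?_⟩
    have h6 : ∀ j, β' j = β' i' → j = i' := by
      intro j hj
      have h7 : j ∈ Finset.univ.filter (fun j => β' j = a) := by
        simp only [Finset.mem_filter, Finset.mem_univ, true_and]
        exact hj.trans h5
      rw [hi'] at h7
      exact Finset.mem_singleton.mp h7
    have h8 := hB'.one i' h6
    rw [h5] at h8
    exact h8
  -- c ≤ N'
  have hcN : ∀ a, c a ≤ N' a := by
    intro a
    have hN := hN2 a
    interval_cases hNa : N' a
    · by_contra hcon
      have h4 : 0 < (Finset.univ.filter (fun j => j ≠ i ∧ b j = a)).card :=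
        Nat.pos_of_ne_zero fun h0 => hcon (le_of_eq h0)
      obtain ⟨j, hj⟩ := Finset.card_pos.mp h4
      have hj' := (Finset.mem_filter.mp hj).2
      have h5 := h1 j hj'.1
      rw [hj'.2, hbot a hNa] at h5
      exact hne j ((Submodule.mem_bot ℝ).mp h5)
    · by_contra hcon
      have h4 : 1 < (Finset.univ.filter (fun j => j ≠ i ∧ b j = a)).card := by
        simpa [hc] using hcon
      obtain ⟨j, hj, j', hj', hjj⟩ := Finset.one_lt_card.mp h4
      have hj1 := (Finset.mem_filter.mp hj).2
      have hj2 := (Finset.mem_filter.mp hj').2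
      obtain ⟨i', -, hi'⟩ := hone a hNa
      have m1 := h1 j hj1.1
      rw [hj1.2] at m1
      have m2 := h1 j' hj2.1
      rw [hj2.2] at m2
      obtain ⟨s, hs⟩ := hi' _ m1
      obtain ⟨t, ht⟩ := hi' _ m2
      exact no2 j j' hjj _ s t hs ht
    · exact hc2 a
  obtain ⟨a', ha1, ha2⟩ := hSH2 K i b β' hcN
  -- lines that contain a vertex
  have hline : ∀ j, j ≠ i → N' (b j) = 1 → ∀ x ∈ L' (b j), ∃ t : ℝ, x = t • w j := by
    intro j hj hNj x hx
    obtain ⟨i', -, hi'⟩ := hone _ hNj
    obtain ⟨s, hs⟩ := hi' _ (h1 j hj)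
    obtain ⟨t, ht⟩ := hi' _ hx
    have hs0 : s ≠ 0 := by
      rintro rfl
      rw [zero_smul] at hs
      exact hne j hs
    refine ⟨t * s⁻¹, ?_⟩
    rw [hs, ht, smul_smul, mul_assoc, inv_mul_cancel₀ hs0, mul_one]
  have hcl : ∀ j, j ≠ i → b j ≠ a' → β j ≠ β i → L (β j) = L' (b j) := by
    intro j hj hba hβ
    by_cases hex : ∃ j', j' ≠ j ∧ β j' = β j
    · obtain ⟨j', hj'j, hβj⟩ := hex
      have hj'i : j' ≠ i := by
        rintro rfl
        exact hβ hβj.symm
      exact h3 j j' hj hj'i (Ne.symm hj'j) hβj.symm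
    · have huniq : ∀ j', β j' = β j → j' = j := by
        intro j' hj'
        by_contra hcon
        exact hex ⟨j', hcon, hj'⟩
      have hLone := hB.one j huniq
      have hc1 : c (b j) = 1 := by
        have : (Finset.univ.filter (fun j' => j' ≠ i ∧ b j' = b j)) = {j} := by
          ext j'
          simp only [Finset.mem_filter, Finset.mem_univ, true_and, Finset.mem_singleton]
          constructor
          · rintro ⟨hj'i, hb⟩
            by_contra hcon
            exact hcon (huniq j' ((h2 j' j hj'i hj hcon).mp hb))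
          · rintro rfl
            exact ⟨hj, rfl⟩
        simp only [hc]
        rw [this, Finset.card_singleton]
      have hN1 : N' (b j) = 1 := by
        rw [← hc1]
        exact (ha2 (b j) hba).symm
      apply le_antisymm
      · intro x hx
        obtain ⟨t, ht⟩ := hLone x hx
        rw [ht]
        exact Submodule.smul_mem _ _ (h1 j hj)
      · intro x hx
        obtain ⟨t, ht⟩ := hline j hj hN1 x hx
        rw [ht]
        exact Submodule.smul_mem _ _ (hB.mem j)
  have hle : ∀ b₀, b₀ ≠ a' → L' b₀ ≤ ⨆ a, L a := by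
    intro b₀ hb₀
    have hN := hN2 b₀
    have hcb : c b₀ = N' b₀ := ha2 b₀ hb₀
    interval_cases hNa : N' b₀
    · rw [hbot b₀ hNa]
      exact bot_le
    · obtain ⟨j, hj⟩ := Finset.card_eq_one.mp hcb
      have h4 : j ∈ Finset.univ.filter (fun j => j ≠ i ∧ b j = b₀) := by rw [hj]; simp
      have hj' := (Finset.mem_filter.mp h4).2
      intro x hx
      have hNj : N' (b j) = 1 := by rw [hj'.2]; exact hNa
      have hx' : x ∈ L' (b j) := by rw [hj'.2]; exact hx
      obtain ⟨t, ht⟩ := hline j hj'.1 hNj x hx'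
      rw [ht]
      exact Submodule.smul_mem _ _ ((le_iSup L (β j)) (hB.mem j))
    · have h4 : 1 < (Finset.univ.filter (fun j => j ≠ i ∧ b j = b₀)).card := by
        have : (Finset.univ.filter (fun j => j ≠ i ∧ b j = b₀)).card = 2 := hcb
        omega
      obtain ⟨j, hj, j', hj', hjj⟩ := Finset.one_lt_card.mp h4
      have hj1 := (Finset.mem_filter.mp hj).2
      have hj2 := (Finset.mem_filter.mp hj').2
      have e : β j = β j' := (h2 j j' hj1.1 hj2.1 hjj).mp (hj1.2.trans hj2.2.symm)
      have e2 := h3 j j' hj1.1 hj2.1 hjj e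
      rw [hj1.2] at e2
      rw [← e2]
      exact le_iSup L (β j)
  refine ⟨a', hle, ?_⟩
  have hNa' : c a' + 1 = N' a' := ha1
  have hNa2 := hN2 a'
  rcases Nat.eq_zero_or_pos (c a') with hc0 | hcpos
  · left
    obtain ⟨i', hi1, hi2⟩ := hone a' (by omega)
    refine ⟨i', hi1.symm, hi2, ?_⟩
    intro j hj
    have hba : b j ≠ a' := by
      intro hcon
      have h5 : (Finset.univ.filter (fun j => j ≠ i ∧ b j = a')) = ∅ := Finset.card_eq_zero.mp hc0
      have h6 : j ∈ Finset.univ.filter (fun j => j ≠ i ∧ b j = a') := by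
        simp only [Finset.mem_filter, Finset.mem_univ, true_and]
        exact ⟨hj, hcon⟩
      rw [h5] at h6
      exact absurd h6 (Finset.notMem_empty _)
    exact ⟨b j, hba, h1 j hj, fun hβ => hcl j hj hba hβ⟩
  · right
    have hc1 : c a' = 1 := by omega
    have hN2' : 1 < (Finset.univ.filter (fun j => β' j = a')).card := by
      have : (Finset.univ.filter (fun j => β' j = a')).card = N' a' := rfl
      omega
    obtain ⟨l, hl⟩ := Finset.card_eq_one.mp hc1
    have h4 : l ∈ Finset.univ.filter (fun j => j ≠ i ∧ b j = a') := by rw [hl]; simp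
    have hl' := (Finset.mem_filter.mp h4).2
    obtain ⟨p, hp, q, hq, hpq⟩ := Finset.one_lt_card.mp hN2'
    have hp' := (Finset.mem_filter.mp hp).2
    have hq' := (Finset.mem_filter.mp hq).2
    have hfin := hB'.two p q hpq (hp'.trans hq'.symm)
    rw [hp'] at hfin
    have hml := h1 l hl'.1
    rw [hl'.2] at hml
    refine ⟨l, hl'.1, hml, hfin, ?_⟩
    intro j hj hjl
    have hba : b j ≠ a' := by
      intro hcon
      have h6 : j ∈ Finset.univ.filter (fun j => j ≠ i ∧ b j = a') := by
        simp only [Finset.mem_filter, Finset.mem_univ, true_and]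
        exact ⟨hj, hcon⟩
      rw [hl] at h6
      exact hjl (Finset.mem_singleton.mp h6)
    exact ⟨b j, hba, h1 j hj, fun hβ => hcl j hj hba hβ⟩

end Pool.Agent.PFJ.H88
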